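import Pool.Agent.W715.BC.Fin1
import Pool.Agent.W979.TE.Main4

set_option autoImplicit false

open Classical Asymptotics Filter

namespace Pool.Agent.TH749.HT

open Pool.Agent.W979.TE Pool.Agent.W979.TE4 Pool.Agent.W979.TE5 Pool.Agent.W715.BC

/-- centre and children, roots below the children, roots at the centre -/
abbrev VT (s q s' : ℕ) : Type := Option (Fin s) ⊕ ((Fin s × Fin q) ⊕ Fin s')

variable {s q s' : ℕ}

/-- parent -/
def par : VT s q s' → VT s q s'
  | .inl none => .inl none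
  | .inl (some _) => .inl none
  | .inr (.inl p) => .inl (some p.1)
  | .inr (.inr _) => .inl none

/-- the centre -/
abbrev cen : VT s q s' := .inl none

/-- the tree of height two -/
def T (s q s' : ℕ) : SimpleGraph (VT s q s') :=
  SimpleGraph.fromRel (fun u v => v ≠ cen ∧ u = par v)

/-- the roots -/
def R (s q s' : ℕ) : Set (VT s q s') := Set.range Sum.inr

lemma par_ne (v : VT s q s') (hv : v ≠ cen) : par v ≠ v := by
  rcases v with (_ | i) | (p | l) <;> simp_all [par]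

lemma adj_iff (u v : VT s q s') : (T s q s').Adj u v ↔
    (v ≠ cen ∧ u = par v) ∨ (u ≠ cen ∧ v = par u) := by
  unfold T
  rw [SimpleGraph.fromRel_adj]
  constructor
  · rintro ⟨-, h⟩
    exact h
  · intro h
    refine ⟨?_, h⟩
    rcases h with ⟨h1, rfl⟩ | ⟨h1, rfl⟩
    · exact par_ne v h1
    · exact (par_ne u h1).symm

/-- colour -/
def col : VT s q s' → Bool
  | .inl none => true
  | .inl (some _) => false
  | .inr (.inl _) => true
  | .inr (.inr _) => false

lemma col_par (v : VT s q s') (hv : v ≠ cen) : col (par v) ≠ col v := by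
  rcases v with (_ | i) | (p | l) <;> simp_all [par, col]

lemma reach (v : VT s q s') : (T s q s').Reachable v cen := by
  have h1 : ∀ i : Fin s, (T s q s').Reachable (.inl (some i)) cen := fun i =>
    ((adj_iff _ _).mpr (Or.inr ⟨by simp, rfl⟩)).reachable
  rcases v with (_ | i) | (p | l)
  · exact SimpleGraph.Reachable.refl _
  · exact h1 i
  · exact (((adj_iff (.inr (.inl p)) (.inl (some p.1))).mpr
      (Or.inr ⟨by simp, rfl⟩)).reachable).trans (h1 p.1)
  · exact ((adj_iff _ _).mpr (Or.inr ⟨by simp, rfl⟩)).reachable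

lemma conn : (T s q s').Connected := by
  have : Nonempty (VT s q s') := ⟨cen⟩
  exact ⟨fun u v => (reach u).trans (reach v).symm⟩

lemma adm (hs : 1 ≤ s) (hq : 1 ≤ q) : Adm (T s q s') (R s q s') col := by
  refine ⟨conn, ⟨.inr (.inl (⟨0, hs⟩, ⟨0, hq⟩)), ⟨_, rfl⟩⟩, ?_, ?_⟩
  · intro u v huv
    rcases (adj_iff u v).mp huv with ⟨h1, rfl⟩ | ⟨h1, rfl⟩
    · exact col_par v h1
    · exact (col_par u h1).symm
  · intro b
    cases b
    · exact ⟨.inl (some ⟨0, hs⟩), by simp [R], rfl⟩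
    · exact ⟨cen, by simp [R], rfl⟩

/-- edges meeting a set -/
lemma eS_T (S : Set (VT s q s')) : eS (T s q s') S =
    (Finset.univ.filter (fun v : VT s q s' => v ≠ cen ∧ (v ∈ S ∨ par v ∈ S))).card := by
  unfold eS
  have h : ({e | e ∈ (T s q s').edgeSet ∧ ∃ v ∈ S, v ∈ e} : Set (Sym2 (VT s q s'))) =
      (fun v => s(par v, v)) '' ((Finset.univ.filter (fun v : VT s q s' =>
        v ≠ cen ∧ (v ∈ S ∨ par v ∈ S)) : Finset (VT s q s')) : Set (VT s q s')) := by
    ext e
    induction e using Sym2.ind with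
    | _ u v =>
      simp only [Set.mem_ofPred_eq, SimpleGraph.mem_edgeSet, Sym2.mem_iff, Set.mem_image,
        Finset.coe_filter, Finset.mem_univ, true_and]
      constructor
      · rintro ⟨h1, w, hw, h2⟩
        rcases (adj_iff u v).mp h1 with ⟨h3, rfl⟩ | ⟨h3, rfl⟩
        · refine ⟨v, ⟨h3, ?_⟩, rfl⟩
          rcases h2 with rfl | rfl
          · exact Or.inr hw
          · exact Or.inl hw
        · refine ⟨u, ⟨h3, ?_⟩, Sym2.eq_swap⟩
          rcases h2 with rfl | rfl
          · exact Or.inl hw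
          · exact Or.inr hw
      · rintro ⟨w, ⟨h1, h2⟩, h3⟩
        have h4 : (T s q s').Adj (par w) w := (adj_iff _ _).mpr (Or.inl ⟨h1, rfl⟩)
        rcases Sym2.eq_iff.mp h3 with ⟨h5, h6⟩ | ⟨h5, h6⟩
        · rw [← h5, ← h6]
          refine ⟨h4, ?_⟩
          rcases h2 with h2 | h2
          · exact ⟨w, h2, Or.inr rfl⟩
          · exact ⟨_, h2, Or.inl rfl⟩
        · rw [← h5, ← h6]
          refine ⟨h4.symm, ?_⟩
          rcases h2 with h2 | h2
          · exact ⟨w, h2, Or.inl rfl⟩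
          · exact ⟨_, h2, Or.inr rfl⟩
  rw [h, Set.InjOn.ncard_image, Set.ncard_coe_finset]
  intro u hu v hv huv
  simp only [Finset.coe_filter, Finset.mem_univ, true_and, Set.mem_ofPred_eq] at hu hv
  rcases Sym2.eq_iff.mp huv with ⟨_, h⟩ | ⟨h1, h2⟩
  · exact h
  · exfalso
    obtain ⟨hu1, -⟩ := hu
    obtain ⟨hv1, -⟩ := hv
    have key : ∀ w : VT s q s', ∀ z, par w ≠ Sum.inr z := by
      rintro ((_ | i) | (p | l)) z <;> simp [par]
    rcases u with (_ | i) | z
    · exact hu1 rfl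
    · exact hv1 h1.symm
    · exact key v z h2.symm

lemma card_filter_VT (P : VT s q s' → Prop) [DecidablePred P] :
    (Finset.univ.filter P).card = (if P cen then 1 else 0) +
      (∑ i : Fin s, if P (.inl (some i)) then 1 else 0) +
      ((∑ i : Fin s, ∑ a : Fin q, if P (.inr (.inl (i, a))) then 1 else 0) +
        ∑ l : Fin s', if P (.inr (.inr l)) then 1 else 0) := by
  rw [Finset.card_filter, Fintype.sum_sum_type, Fintype.sum_sum_type, Fintype.sum_option,
    Fintype.sum_prod_type]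

/-- the set of children in S, counted -/
noncomputable def jj (S : Set (VT s q s')) : ℕ :=
  ∑ i : Fin s, if (Sum.inl (some i) : VT s q s') ∈ S then 1 else 0

lemma jj_le (S : Set (VT s q s')) : jj S ≤ s := by
  unfold jj
  calc _ ≤ ∑ _i : Fin s, 1 := Finset.sum_le_sum (fun i _ => by split_ifs <;> omega)
    _ = s := by simp

lemma ncard_S (S : Set (VT s q s')) (hS : S ⊆ (R s q s')ᶜ) :
    S.ncard = (if cen ∈ S then 1 else 0) + jj S := by
  have h1 : S.ncard = (Finset.univ.filter (fun v : VT s q s' => v ∈ S)).card := by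
    rw [← Set.ncard_coe_finset]
    congr 1
    ext v
    simp
  rw [h1, card_filter_VT]
  have h2 : ∀ v, (Sum.inr v : VT s q s') ∉ S := fun v hv => hS hv ⟨v, rfl⟩
  simp [h2, jj]

lemma eS_val (S : Set (VT s q s')) (hS : S ⊆ (R s q s')ᶜ) :
    eS (T s q s') S = if cen ∈ S then s + s' + jj S * q else jj S * (q + 1) := by
  rw [eS_T, card_filter_VT]
  have h2 : ∀ v, (Sum.inr v : VT s q s') ∉ S := fun v hv => hS hv ⟨v, rfl⟩
  have e1 : (∑ i : Fin s, ∑ a : Fin q, if ((Sum.inr (Sum.inl (i, a)) : VT s q s') ≠ cen ∧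
      ((Sum.inr (Sum.inl (i, a)) : VT s q s') ∈ S ∨ par (Sum.inr (Sum.inl (i, a)) :
        VT s q s') ∈ S)) then 1 else 0) = jj S * q := by
    unfold jj
    rw [Finset.sum_mul]
    refine Finset.sum_congr rfl (fun i _ => ?_)
    by_cases hi : (Sum.inl (some i) : VT s q s') ∈ S
    · simp [h2, par, hi]
    · simp [h2, par, hi]
  rw [e1, if_neg (fun h => h.1 rfl)]
  by_cases h : (cen : VT s q s') ∈ S
  · rw [if_pos h]
    have e2 : (∑ i : Fin s, if ((Sum.inl (some i) : VT s q s') ≠ cen ∧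
        ((Sum.inl (some i) : VT s q s') ∈ S ∨ par (Sum.inl (some i) : VT s q s') ∈ S))
        then 1 else 0) = s := by
      calc _ = ∑ _i : Fin s, 1 :=
            Finset.sum_congr rfl (fun i _ => if_pos ⟨by simp, Or.inr h⟩)
        _ = s := by simp
    have e3 : (∑ l : Fin s', if ((Sum.inr (Sum.inr l) : VT s q s') ≠ cen ∧
        ((Sum.inr (Sum.inr l) : VT s q s') ∈ S ∨ par (Sum.inr (Sum.inr l) : VT s q s') ∈ S))
        then 1 else 0) = s' := by
      calc _ = ∑ _i : Fin s', 1 :=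
            Finset.sum_congr rfl (fun i _ => if_pos ⟨by simp, Or.inr h⟩)
        _ = s' := by simp
    rw [e2, e3]
    ring
  · rw [if_neg h]
    have e2 : (∑ i : Fin s, if ((Sum.inl (some i) : VT s q s') ≠ cen ∧
        ((Sum.inl (some i) : VT s q s') ∈ S ∨ par (Sum.inl (some i) : VT s q s') ∈ S))
        then 1 else 0) = jj S := by
      unfold jj
      refine Finset.sum_congr rfl (fun i _ => ?_)
      by_cases hi : (Sum.inl (some i) : VT s q s') ∈ S
      · rw [if_pos hi, if_pos ⟨by simp, Or.inl hi⟩]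
      · rw [if_neg hi, if_neg]
        rintro ⟨-, h3 | h3⟩
        · exact hi h3
        · exact h h3
    have e3 : (∑ l : Fin s', if ((Sum.inr (Sum.inr l) : VT s q s') ≠ cen ∧
        ((Sum.inr (Sum.inr l) : VT s q s') ∈ S ∨ par (Sum.inr (Sum.inr l) : VT s q s') ∈ S))
        then 1 else 0) = 0 := by
      refine Finset.sum_eq_zero (fun i _ => if_neg ?_)
      rintro ⟨-, h3 | h3⟩
      · exact h2 _ h3
      · exact h h3
    rw [e2, e3]
    ring

lemma jj_all : jj ((R s q s')ᶜ) = s := by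
  unfold jj
  have : ∀ i : Fin s, (Sum.inl (some i) : VT s q s') ∈ (R s q s')ᶜ := by
    intro i
    simp [R]
  simp [this]

lemma cen_mem : (cen : VT s q s') ∈ (R s q s')ᶜ := by simp [R]

lemma ncard_R : ((R s q s')ᶜ).ncard = s + 1 := by
  rw [ncard_S _ (le_refl _), jj_all, if_pos cen_mem]
  ring

lemma eS_R : eS (T s q s') (R s q s')ᶜ = s * (q + 1) + s' := by
  rw [eS_val _ (le_refl _), jj_all, if_pos cen_mem]
  ring

lemma balanced (h1 : s' ≤ q + 1) (h2 : q ≤ s + s') (S : Set (VT s q s'))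
    (hS : S ⊆ (R s q s')ᶜ) :
    (s * (q + 1) + s') * S.ncard ≤ (s + 1) * eS (T s q s') S := by
  rw [ncard_S S hS, eS_val S hS]
  have hj := jj_le S
  obtain ⟨d, hd⟩ := Nat.exists_eq_add_of_le hj
  split_ifs with h
  · obtain ⟨e, he⟩ := Nat.exists_eq_add_of_le h2
    zify at hd he ⊢
    nlinarith [mul_nonneg (Int.natCast_nonneg d) (Int.natCast_nonneg e)]
  · obtain ⟨e, he⟩ := Nat.exists_eq_add_of_le h1
    zify at hd he ⊢
    nlinarith [mul_nonneg (Int.natCast_nonneg (jj S)) (Int.natCast_nonneg e)]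

lemma lab : Lab (T s q s') (R s q s') s q s' := by
  refine ⟨cen, fun i => .inl (some i), fun i a => .inr (.inl (i, a)), fun l => .inr (.inr l),
    by simp [R], by simp [R], by simp [R], by simp [R], ?_, by simp, ?_, ?_, by simp, ?_, ?_⟩
  · intro i j h
    simpa using h
  · rintro ⟨i, a⟩ ⟨j, b⟩ h
    simpa using h
  · intro i j h
    simpa using h
  · rintro ((_ | i) | (⟨i, a⟩ | l))
    · exact Or.inl rfl
    · exact Or.inr (Or.inl ⟨i, rfl⟩)
    · exact Or.inr (Or.inr (Or.inl ⟨i, a, rfl⟩))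
    · exact Or.inr (Or.inr (Or.inr ⟨l, rfl⟩))
  · intro u v huv
    have key : ∀ u v : VT s q s', v ≠ cen → u = par v →
      (∃ i, (u = cen ∧ v = .inl (some i)) ∨ (v = cen ∧ u = .inl (some i))) ∨
      (∃ i a, (u = .inl (some i) ∧ v = .inr (.inl (i, a))) ∨
        (v = .inl (some i) ∧ u = .inr (.inl (i, a)))) ∨
      (∃ l, (u = cen ∧ v = .inr (.inr l)) ∨ (v = cen ∧ u = .inr (.inr l))) := by
      rintro u ((_ | i) | (⟨i, a⟩ | l)) hv rfl
      · exact absurd rfl hv
      · exact Or.inl ⟨i, Or.inl ⟨rfl, rfl⟩⟩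
      · exact Or.inr (Or.inl ⟨i, a, Or.inl ⟨rfl, rfl⟩⟩)
      · exact Or.inr (Or.inr ⟨l, Or.inl ⟨rfl, rfl⟩⟩)
    rcases (adj_iff u v).mp huv with ⟨h1, h2⟩ | ⟨h1, h2⟩
    · exact key u v h1 h2
    · rcases key v u h1 h2 with ⟨i, h⟩ | ⟨i, a, h⟩ | ⟨l, h⟩
      · exact Or.inl ⟨i, h.symm⟩
      · exact Or.inr (Or.inl ⟨i, a, h.symm⟩)
      · exact Or.inr (Or.inr ⟨l, h.symm⟩)

/-- the trees of height two give good parameters -/
theorem good (s q s' : ℕ) (hs : 1 ≤ s) (hq : 1 ≤ q) (hs' : s' ≤ q) (hb : q ≤ s + s')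
    (hcond : q ^ 2 + q + 1 ≤ s * q + s' * (q + 1)) : Good (s + 1) (s * (q + 1) + s') := by
  refine ⟨VT s q s', inferInstance, T s q s', R s q s', col, adm hs hq, ncard_R, eS_R,
    balanced (by omega) hb, ?_⟩
  intro t ht
  obtain ⟨C, hC⟩ := main_numbers s q s' t hs hq hs' ht hcond
    (((s * (q + 1) + s' : ℕ) : ℝ) / ((s + 1 : ℕ) : ℝ)) (by
      push_cast
      field_simp)
  refine ⟨C, fun n G hG => hC n G (fun h => hG ?_)⟩
  exact Pool.Agent.W389.BC.tr3 (VT s q s') (T s q s') (R s q s') s q s' lab t n G h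

/-- Turan exponents from trees of height two -/
theorem exponents (a b h : ℕ) (hh : 1 ≤ h) (ha : h + 2 ≤ a) (hab : a < b) (hdvd : a ∣ b + h)
    (hb : h * (a - 1) ≤ b) :
    ∃ k : ℕ, ∃ H : SimpleGraph (Fin k), H.Colorable 2 ∧
      (fun n : ℕ => (SimpleGraph.extremalNumber n H : ℝ)) =Θ[atTop]
        (fun n : ℕ => (n : ℝ) ^ (2 - (a : ℝ) / (b : ℝ))) := by
  obtain ⟨m, hm⟩ := hdvd
  obtain ⟨s, rfl⟩ : ∃ s, a = s + 1 := ⟨a - 1, by omega⟩
  have hm1 : h ≤ m := by
    have h1 : (s + 1) * h ≤ (s + 1) * m := by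
      rw [← hm]
      simp only [Nat.add_sub_cancel] at hb
      nlinarith
    exact Nat.le_of_mul_le_mul_left h1 (by omega)
  have hm2 : 2 ≤ m := by
    by_contra hc
    have h1 : m ≤ 1 := by omega
    have h2 : (s + 1) * m ≤ (s + 1) * 1 := Nat.mul_le_mul_left _ h1
    omega
  -- base tree
  obtain ⟨q, s', hq, hs', hqs, hmq, hcond⟩ : ∃ q s' : ℕ, 1 ≤ q ∧ s' ≤ q ∧ q + 1 = s' + h ∧
      q + 1 ≤ m ∧ q ^ 2 + q + 1 ≤ s * q + s' * (q + 1) := by
    by_cases h1 : h = 1
    · subst h1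
      refine ⟨1, 1, le_refl _, le_refl _, rfl, by omega, ?_⟩
      omega
    · obtain ⟨q, rfl⟩ : ∃ q, h = q + 1 := ⟨h - 1, by omega⟩
      refine ⟨q, 0, by omega, by omega, by omega, hm1, ?_⟩
      have h2 : (q + 2) * q ≤ s * q := Nat.mul_le_mul_right _ (by omega)
      have h3 : 1 ≤ q := by omega
      nlinarith
  obtain ⟨j, hj⟩ := Nat.exists_eq_add_of_le hmq
  have hbe : b = (s * (q + 1) + s') + j * (s + 1) := by
    have h1 : b + h = (s + 1) * (q + 1 + j) := by rw [hm, hj]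
    have h2 : (s + 1) * (q + 1 + j) = (s * (q + 1) + s' + j * (s + 1)) + h := by
      have h3 : (s + 1) * (q + 1 + j) = s * (q + 1) + (q + 1) + j * (s + 1) := by ring
      rw [h3, hqs]
      ring
    omega
  have hgood := good s q s' (by omega) hq hs' (by omega) hcond
  have hlt : s + 1 < s * (q + 1) + s' := by
    by_cases h1 : h = 1
    · have : q = s' := by omega
      subst this
      have h2 : s * 2 ≤ s * (q + 1) := Nat.mul_le_mul_left _ (by omega)
      omega
    · have h2 : s * 2 ≤ s * (q + 1) := Nat.mul_le_mul_left _ (by omega)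
      omega
  have := theta_of_good (m := s + 1) (e := (s * (q + 1) + s') + j * (s + 1)) (by omega)
    (by omega) (good_iter (by omega) hlt hgood j)
  rw [← hbe] at this
  exact this

end Pool.Agent.TH749.HT
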